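import Pool.Agent.Helper88.TU.Size
import Pool.Agent.Helper42.CG.LB
import Pool.Agent.Helper67.CG.WT
import Pool.Agent.Helper74.CG.CM
import Pool.Agent.Helper88.CG.VP

/-!
# MP_69be96_nt, project TU, packet LB: lower bound for the primes under the weight
-/

set_option autoImplicit false

open Finset Filter Topology

open scoped Classical

namespace Pool.Agent.Helper32.TU

open Pool.Agent.Helper88.PP (pr Rg om Sf SS uu vv ee LA VV QQ cost)
open Pool.Agent.Helper88.RR (gg ab TB WB nz DB VM)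
open Pool.Agent.Helper88.GM (NI XI In)
open Pool.Agent.Helper88.CG (tw pw th ic DS sg CN qE mE Wt Dt)
open Pool.Agent.Helper85.RR (ab_nonneg mem_TB card_TB prod_TB WB_eq DB_eq one_le_DB)
open Pool.Agent.Helper42.CG (pw_nonneg pw_le_one XI_nonneg DS' DS'_nonneg Sn moment bad_small)
open Pool.Agent.Helper88.TU

/-- the exponential beats `1/E` -/
theorem exp_E (c η : ℝ) (hc : 0 < c) (hη : 0 < η) : ∃ E0 : ℕ, ∀ E : ℕ,
    E0 ≤ E → (E : ℝ) * Real.exp (-(c * E)) ≤ η := by
  have h1 := (Real.tendsto_pow_mul_exp_neg_atTop_nhds_zero 1).comp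
    (tendsto_natCast_atTop_atTop.const_mul_atTop hc : Tendsto (fun E : ℕ => c * (E : ℝ)) atTop atTop)
  have h2 := h1.eventually (gt_mem_nhds (show (0 : ℝ) < c * η by positivity))
  obtain ⟨E0, hE0⟩ := eventually_atTop.1 h2
  refine ⟨E0, fun E hE => ?_⟩
  have h3 := hE0 E hE
  simp only [Function.comp_apply, pow_one] at h3
  have h4 : c * ((E : ℝ) * Real.exp (-(c * E))) < c * η := by linarith
  exact (lt_of_mul_lt_mul_left h4 hc.le).le

/-- Packet `LB`. -/
theorem lb : StmtER → StmtCO → StmtLB := by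
  intro h2 h3 η hη
  have h1 := Pool.Agent.Helper67.CG.wt
  have h5 := Pool.Agent.Helper88.CG.vp
  have h4 := Pool.Agent.Helper74.CG.cm h5
  obtain ⟨C, hC, hCB⟩ := Pool.Agent.Helper31.RR.cb
  obtain ⟨c2, hc2, E2, hER⟩ := h2 C hC
  obtain ⟨C3, hC3, E3, hCO⟩ := h3
  set η' : ℝ := min η 1 / 2 with hη'
  have hη'0 : 0 < η' := by rw [hη']; have := lt_min hη one_pos; linarith
  have hη'1 : η' ≤ 1 / 2 := by rw [hη']; have := min_le_right η 1; linarith
  have hη'2 : η' ≤ η := by rw [hη']; have := min_le_left η 1; linarith only [hη, this]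
  obtain ⟨E4, hCM⟩ := h4 η' hη'0
  obtain ⟨c5, hc5, E5, hVP⟩ := h5
  obtain ⟨c6, hc6, hom⟩ := Pool.Agent.Helper74.PP.om_lower
  obtain ⟨E6, hex⟩ := exp_E c2 (η' / 2) hc2 (by positivity)
  obtain ⟨E9, hsize⟩ := size
  obtain ⟨E7, hbad⟩ := bad_small (64 * C3 / η' ^ 3) (by positivity)
  refine ⟨max (max (max E2 E3) (max E4 E5)) (max (max E6 E7) (max E9 64)),
    fun E z x y hE hS b hb P hP hPA j hj hjP => ?_⟩
  have hE2 : E2 ≤ E := by
    exact ((le_max_left _ _).trans (le_max_left _ _)).trans ((le_max_left _ _).trans hE)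
  have hE3 : E3 ≤ E := by
    exact ((le_max_right _ _).trans (le_max_left _ _)).trans ((le_max_left _ _).trans hE)
  have hE4 : E4 ≤ E := by
    exact ((le_max_left _ _).trans (le_max_right _ _)).trans ((le_max_left _ _).trans hE)
  have hE5 : E5 ≤ E := by
    exact ((le_max_right _ _).trans (le_max_right _ _)).trans ((le_max_left _ _).trans hE)
  have hE6 : E6 ≤ E := by
    exact ((le_max_left _ _).trans (le_max_left _ _)).trans ((le_max_right _ _).trans hE)
  have hE7 : E7 ≤ E := by
    exact ((le_max_right _ _).trans (le_max_left _ _)).trans ((le_max_right _ _).trans hE)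
  have hE9 : E9 ≤ E := by
    exact ((le_max_left _ _).trans (le_max_right _ _)).trans ((le_max_right _ _).trans hE)
  have hE8 : 64 ≤ E := by
    exact ((le_max_right _ _).trans (le_max_right _ _)).trans ((le_max_right _ _).trans hE)
  obtain ⟨a1, a2, a3, a4, a5, a6, a7, a8, a9, a10, a11, a12, a13, a14⟩ := hsize E z x y hE9 hS
  have hEr : (64 : ℝ) ≤ E := by exact_mod_cast hE8
  obtain ⟨hm1, hqm, hM2, hK6, _, hVV⟩ := hVP E hE5
  -- `z`
  have hzE : Real.exp E ≤ z := hS.1
  have hzE' : (E : ℝ) + 1 ≤ z := (Real.add_one_le_exp _).trans hzE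
  have hzE2 : E + 1 ≤ z := by exact_mod_cast hzE'
  have hz2 : 2 ≤ z := by omega
  have hV1 := (hVV z hz2).1
  -- `y`
  have hyE : E ≤ y := by
    have : E ≤ E ^ 2 := Nat.le_self_pow (by norm_num) E
    omega
  have hPy : P.card ≤ y := by
    refine (Finset.card_le_card hP).trans ?_
    simp
  set m := mE E with hm
  set q := qE E with hq
  have hq1 : 1 ≤ q := by
    rw [hq]
    unfold qE
    exact Nat.one_le_two_pow
  have hqm' : q * m ≤ E / 16 := by
    refine le_trans ?_ hqm
    rw [pow_two, mul_assoc]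
    calc q * m = 1 * (q * m) := (one_mul _).symm
      _ ≤ q * (q * m) := Nat.mul_le_mul_right _ hq1
  -- parameters of the error term
  set K : ℕ := 2 * (E / 16 / m + 2) with hK
  have hK3 : K ^ 3 ≤ E := by
    have h7 : 1 ≤ K := by
      rw [hK]
      exact Nat.succ_le_of_lt (by positivity)
    exact (Nat.pow_le_pow_right h7 (by norm_num)).trans hK6
  have hKm : 2 * (E / 16 / m) ≤ K := by
    rw [hK]
    exact Nat.mul_le_mul_left 2 (Nat.le_add_right _ _)
  have hmom := moment h1 hC E z x y b j m q K P hz2 hm1 hqm' hKm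
    (fun d hd => (hCB m q (E / 16) z hm1 hz2 (by omega) hV1 d hd).1)
  have hPA' : (P.card : ℝ) * om y z ≤ (E : ℝ) ^ 2 := by nlinarith only [hPA, sq_nonneg (E : ℝ)]
  have her := hER E z x y hE2 hS b hb K hK3 P hP hPA' j hj hjP
  have hmain := hmom.trans her
  -- `x`
  have hx2 : 2 ≤ x := by
    have h7 := hS.2.1
    have h8 : z ^ 1 ≤ z ^ E := Nat.pow_le_pow_right (by omega) (by omega)
    rw [pow_one] at h8
    omega
  have hlogz : 0 < Real.log z := Real.log_pos (by exact_mod_cast hz2)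
  -- the size of `om`
  set o : ℝ := om y z with ho
  have homl : 1 / (c6 * Real.log z) ≤ o := (hom y z hz2).1
  have ho0 : 0 < o := lt_of_lt_of_le (by positivity) homl
  set X : ℝ := XI (x / 32) x (QQ x) with hX
  have hX0 : 0 ≤ X := XI_nonneg _ _ _
  set A : ℝ := X * (o / E) with hA
  have hA0 : 0 ≤ A := by rw [hA]; positivity
  have hexp : Real.exp (-(c2 * E)) * (o * X) ≤ η' / 2 * A := by
    have h8 := hex E hE6
    have hE0 : (0 : ℝ) < E := by linarith only [hη'0, hη'1, hEr]
    have h9 : Real.exp (-(c2 * E)) ≤ η' / 2 / E := by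
      rw [le_div_iff₀ hE0]; linarith only [h8]
    calc Real.exp (-(c2 * E)) * (o * X) ≤ η' / 2 / E * (o * X) :=
          mul_le_mul_of_nonneg_right h9 (by positivity)
      _ = η' / 2 * A := by rw [hA]; ring
  -- the mean square
  have hDt : Dt E z y P = DB m q (E / 16) z y P := rfl
  have hD1 : 1 ≤ Dt E z y P := one_le_DB m q (E / 16) z y hPy
  set D := Dt E z y P with hD
  set N := NI (x / 32) x (QQ x) b with hN
  set μ : ℝ := (P.card : ℝ) * o with hμ
  have hμ0 : 0 ≤ μ := by positivity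
  set k0 : ℝ := 4 * ((E / 16 / m : ℕ) + 1) with hk0
  have hk0p : 0 < k0 := by positivity
  -- the good integers
  set good : ℕ → Prop := fun n => μ ≤ √E ∨ μ * (1 - η' / k0) ≤ (Sn y z P n).card with hgood
  have hgoodD : ∀ n, good n → (1 - η') * D ≤ DS' m q (E / 16) z P (Sn y z P n) := by
    intro n hn
    exact hCM E z y hE4 hz2 hyE P (Sn y z P n) (Finset.filter_subset _ _) hn
  -- the bad integers
  have hbadsum : ∑ n ∈ N.filter (fun n => ¬ good n), pw x (n + j) ≤ η' / 2 * A := by
    rcases le_or_gt μ (√E) with hsm | hlg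
    · have h7 : N.filter (fun n => ¬ good n) = ∅ := by
        refine Finset.filter_eq_empty_iff.2 fun n _ h => h (Or.inl hsm)
      rw [h7, Finset.sum_empty]
      positivity
    · have hsq1 : 1 ≤ √(E : ℝ) := by
        rw [Real.one_le_sqrt]
        linarith only [hη'0, hη'1, hEr]
      have hμ1 : 1 ≤ μ := by linarith only [hlg, hsq1]
      have hco := hCO E z x y hE3 hS b hb P hP hPA j hj hjP
      have h8 : ∑ n ∈ N.filter (fun n => ¬ good n), pw x (n + j) * (μ * (η' / k0)) ^ 2 ≤
          ∑ n ∈ N.filter (fun n => (n + j).Prime),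
            (((P.filter (fun h => Rg y z (n + h))).card : ℝ) - P.card * o) ^ 2 := by
        have h9 : ∀ n ∈ N.filter (fun n => ¬ good n), ¬ (n ∈ N.filter (fun n => (n + j).Prime)) →
            pw x (n + j) * (μ * (η' / k0)) ^ 2 = 0 := by
          intro n hn hn'
          have h10 : ¬ (n + j).Prime := fun h => hn' (Finset.mem_filter.2
            ⟨(Finset.mem_filter.1 hn).1, h⟩)
          unfold pw
          rw [if_neg h10, zero_mul]
        rw [← Finset.sum_filter_add_sum_filter_not (N.filter (fun n => ¬ good n))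
          (fun n => n ∈ N.filter (fun n => (n + j).Prime))]
        rw [Finset.sum_eq_zero (s := (N.filter (fun n => ¬ good n)).filter
          (fun n => ¬ (n ∈ N.filter (fun n => (n + j).Prime))))
          (fun n hn => h9 n (Finset.mem_filter.1 hn).1 (Finset.mem_filter.1 hn).2), add_zero]
        refine le_trans (Finset.sum_le_sum (g := fun n =>
          (((P.filter (fun h => Rg y z (n + h))).card : ℝ) - P.card * o) ^ 2) fun n hn => ?_)
          (Finset.sum_le_sum_of_subset_of_nonneg ?_ fun n _ _ => sq_nonneg _)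
        · have hn1 := (Finset.mem_filter.1 (Finset.mem_filter.1 hn).1).2
          have hng : ¬ (μ ≤ √E ∨ μ * (1 - η' / k0) ≤ (Sn y z P n).card) := hn1
          push Not at hng
          have h11 : ((Sn y z P n).card : ℝ) < μ * (1 - η' / k0) := hng.2
          have h12 : μ * (η' / k0) ≤ μ - ((Sn y z P n).card : ℝ) := by
            have : μ * (1 - η' / k0) = μ - μ * (η' / k0) := by ring
            linarith only [hng]
          have h13 : 0 ≤ μ * (η' / k0) := by positivity
          have h14 : (μ * (η' / k0)) ^ 2 ≤ (μ - ((Sn y z P n).card : ℝ)) ^ 2 :=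
            pow_le_pow_left₀ h13 h12 2
          have h15 := pw_le_one x (n + j) hx2
          have h16 := pw_nonneg x (n + j)
          calc pw x (n + j) * (μ * (η' / k0)) ^ 2 ≤ 1 * (μ * (η' / k0)) ^ 2 :=
                mul_le_mul_of_nonneg_right h15 (sq_nonneg _)
            _ ≤ (μ - ((Sn y z P n).card : ℝ)) ^ 2 := by rw [one_mul]; exact h14
            _ = (((P.filter (fun h => Rg y z (n + h))).card : ℝ) - P.card * o) ^ 2 := by
                rw [hμ]
                unfold Sn
                ring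
        · intro n hn
          exact (Finset.mem_filter.1 hn).2
      rw [← Finset.sum_mul] at h8
      have h17 : (∑ n ∈ N.filter (fun n => ¬ good n), pw x (n + j)) * (μ * (η' / k0)) ^ 2 ≤
          C3 * A * (μ + 1) := h8.trans hco
      -- arithmetic
      have hbd := hbad E hE7 (E / 16 / m) hK6
      have h18 : 64 * C3 * (((E / 16 / m : ℕ) : ℝ) + 1) ^ 2 ≤ η' ^ 3 * μ := by
        have h19 : 64 * C3 / η' ^ 3 * (((E / 16 / m : ℕ) : ℝ) + 1) ^ 2 ≤ μ := hbd.trans hlg.le
        have h20 : 64 * C3 * (((E / 16 / m : ℕ) : ℝ) + 1) ^ 2 =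
            η' ^ 3 * (64 * C3 / η' ^ 3 * (((E / 16 / m : ℕ) : ℝ) + 1) ^ 2) := by
          field_simp
        rw [h20]
        exact mul_le_mul_of_nonneg_left h19 (by positivity)
      have hk2 : k0 ^ 2 = 16 * (((E / 16 / m : ℕ) : ℝ) + 1) ^ 2 := by rw [hk0]; ring
      have h21 : 4 * C3 * k0 ^ 2 ≤ η' ^ 3 * μ := by rw [hk2]; linarith only [h18]
      have h22 : C3 * A * (μ + 1) ≤ η' / 2 * A * (μ * (η' / k0)) ^ 2 := by
        have h23 : C3 * (μ + 1) ≤ η' / 2 * (μ * (η' / k0)) ^ 2 := by
          have h24 : η' / 2 * (μ * (η' / k0)) ^ 2 = η' ^ 3 * μ * μ / (2 * k0 ^ 2) := by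
            field_simp
          rw [h24, le_div_iff₀ (by positivity)]
          have h25 : 4 * C3 * k0 ^ 2 * μ ≤ η' ^ 3 * μ * μ := mul_le_mul_of_nonneg_right h21 hμ0
          have h26 : C3 * (μ + 1) * (2 * k0 ^ 2) ≤ 4 * C3 * k0 ^ 2 * μ := by
            have h27 : 0 ≤ C3 * k0 ^ 2 := by positivity
            nlinarith only [hη'0, hη'1, hlg, h27, hsq1]
          linarith only [h25, h26]
        calc C3 * A * (μ + 1) = A * (C3 * (μ + 1)) := by ring
          _ ≤ A * (η' / 2 * (μ * (η' / k0)) ^ 2) := mul_le_mul_of_nonneg_left h23 hA0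
          _ = η' / 2 * A * (μ * (η' / k0)) ^ 2 := by ring
      have h28 : 0 < (μ * (η' / k0)) ^ 2 := by positivity
      exact le_of_mul_le_mul_right (h17.trans h22) h28
  -- assembly
  have hlow : (1 - η') * D * (∑ n ∈ N, pw x (n + j) - η' / 2 * A) ≤
      ∑ n ∈ N, pw x (n + j) * DS' m q (E / 16) z P (Sn y z P n) := by
    have h7 : ∑ n ∈ N.filter good, pw x (n + j) * ((1 - η') * D) ≤
        ∑ n ∈ N, pw x (n + j) * DS' m q (E / 16) z P (Sn y z P n) := by
      refine le_trans (Finset.sum_le_sum (g := fun n =>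
        pw x (n + j) * DS' m q (E / 16) z P (Sn y z P n)) fun n hn => ?_)
        (Finset.sum_le_sum_of_subset_of_nonneg (Finset.filter_subset _ _) fun n _ _ =>
          mul_nonneg (pw_nonneg _ _) (DS'_nonneg _ _ _ _ _ _))
      exact mul_le_mul_of_nonneg_left (hgoodD n (Finset.mem_filter.1 hn).2) (pw_nonneg _ _)
    rw [← Finset.sum_mul] at h7
    have h8 := Finset.sum_filter_add_sum_filter_not N good (fun n => pw x (n + j))
    have h9 : ∑ n ∈ N, pw x (n + j) - η' / 2 * A ≤ ∑ n ∈ N.filter good, pw x (n + j) := by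
      linarith only [hbadsum, h8]
    have h10 : 0 ≤ (1 - η') * D := mul_nonneg (by linarith only [hη'0, hη'1]) (by linarith only [hη'0, hη'1, hD1])
    calc (1 - η') * D * (∑ n ∈ N, pw x (n + j) - η' / 2 * A) ≤
          (1 - η') * D * ∑ n ∈ N.filter good, pw x (n + j) := mul_le_mul_of_nonneg_left h9 h10
      _ = (∑ n ∈ N.filter good, pw x (n + j)) * ((1 - η') * D) := by ring
      _ ≤ _ := h7
  have hW : ∑ n ∈ N, pw x (n + j) * Wt E z y P n ^ 2 =
      ∑ n ∈ N, pw x (n + j) * WB m q (E / 16) z y P n ^ 2 := rfl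
  rw [hW]
  have h7 := (abs_le.1 hmain).1
  have hS0 : 0 ≤ ∑ n ∈ N, pw x (n + j) := Finset.sum_nonneg fun n _ => pw_nonneg _ _
  set s0 := ∑ n ∈ N, pw x (n + j) with hs0
  set W := ∑ n ∈ N, pw x (n + j) * WB m q (E / 16) z y P n ^ 2 with hWd
  set V := ∑ n ∈ N, pw x (n + j) * DS' m q (E / 16) z P (Sn y z P n) with hVd
  have h8 : (1 - η') * D * (s0 - η' / 2 * A) - η' / 2 * A ≤ W := by linarith only [hexp, hlow, h7]
  refine le_trans ?_ h8
  have h9 : η' / 2 * A ≤ D * (η' / 2 * A) := le_mul_of_one_le_left (by positivity) hD1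
  have h10 : D * ((1 - η) * s0 - η * A) ≤ D * ((1 - η') * (s0 - η' / 2 * A) - η' / 2 * A) := by
    refine mul_le_mul_of_nonneg_left ?_ (by linarith only [hη'0, hη'1, hD1])
    have e1 : (1 - η) * s0 ≤ (1 - η') * s0 := mul_le_mul_of_nonneg_right (by linarith only [hη'2]) hS0
    have e2 : η' * A ≤ η * A := mul_le_mul_of_nonneg_right hη'2 hA0
    have e3 : 0 ≤ η' * (η' / 2 * A) := by positivity
    nlinarith only [e1, e2, e3]
  calc D * ((1 - η) * s0 - η * A) ≤ D * ((1 - η') * (s0 - η' / 2 * A) - η' / 2 * A) := h10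
    _ = (1 - η') * D * (s0 - η' / 2 * A) - D * (η' / 2 * A) := by ring
    _ ≤ (1 - η') * D * (s0 - η' / 2 * A) - η' / 2 * A := by linarith only [h9]

end Pool.Agent.Helper32.TU
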